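import Pool.Agent.Y766.R11.Stm
import Pool.Agent.Y766.R3.TD

/-!
Project R11 (helper766), job MSZ: the mollified mean square at `s`, first range.
-/

set_option autoImplicit false

namespace Pool.Agent.Y889.R11

open Finset
open scoped Pointwise
open Pool.Agent.Y766.R3 (FF orth cong_sum)
open Pool.Agent.Y766.R10 (WG mw S_DIAG)
open Pool.Agent.Y766.R11

/-! ### The coefficients (as in Y756.R10.Msq) -/

/-- the coefficients of the product -/
noncomputable def bb (q κ : ℝ) (G : ℝ → ℂ) (k : ℕ) : ℂ :=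
  ∑ l ∈ k.divisors, (mw q κ l : ℂ) * G ((Real.log k - Real.log l) / Real.log q)

lemma mw_zero {q κ : ℝ} {l : ℕ} (h : ⌊q ^ κ⌋₊ < l) : mw q κ l = 0 := by
  unfold mw
  rw [if_neg]
  exact not_le.2 (Nat.lt_of_floor_lt h)

lemma bb_eq (q κ : ℝ) (G : ℝ → ℂ) {k : ℕ} (hk : 1 ≤ k) :
    bb q κ G k = ∑ l ∈ Icc 1 ⌊q ^ κ⌋₊, if l ∣ k then
      (mw q κ l : ℂ) * G ((Real.log k - Real.log l) / Real.log q) else 0 := by
  classical
  unfold bb
  rw [← sum_filter]
  symm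
  apply sum_subset
  · intro l hl
    rw [mem_filter, mem_Icc] at hl
    rw [Nat.mem_divisors]
    exact ⟨hl.2, by omega⟩
  · intro l hl hl'
    rw [Nat.mem_divisors] at hl
    have h1 : 1 ≤ l := Nat.pos_of_dvd_of_pos hl.1 hk
    have h2 : ⌊q ^ κ⌋₊ < l := by
      by_contra h
      apply hl'
      rw [mem_filter, mem_Icc]
      exact ⟨⟨h1, by omega⟩, hl.1⟩
    rw [mw_zero h2]
    simp

/-! ### Moments of the divisor function (as in TH212.PL.L1) -/

lemma dir (X : ℕ) (F : ℕ → ℕ → ℝ) :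
    ∑ n ∈ Icc 1 X, ∑ d ∈ n.divisors, F d (n / d) =
      ∑ d ∈ Icc 1 X, ∑ m ∈ Icc 1 (X / d), F d m := by
  have h1 : ∀ n ∈ Icc 1 X, ∑ d ∈ n.divisors, F d (n / d) =
      ∑ d ∈ Icc 1 X, if d ∣ n then F d (n / d) else 0 := by
    intro n hn
    rw [mem_Icc] at hn
    rw [← sum_filter]
    apply sum_congr _ fun _ _ => rfl
    ext d
    rw [Nat.mem_divisors, mem_filter, mem_Icc]
    constructor
    · rintro ⟨h1, h2⟩
      exact ⟨⟨Nat.pos_of_dvd_of_pos h1 (by omega), (Nat.le_of_dvd (by omega) h1).trans hn.2⟩, h1⟩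
    · rintro ⟨_, h1⟩
      exact ⟨h1, by omega⟩
  rw [sum_congr rfl h1, sum_comm]
  apply sum_congr rfl
  intro d hd
  rw [mem_Icc] at hd
  rw [← sum_filter]
  apply sum_nbij' (fun n => n / d) (fun m => d * m)
  · intro n hn
    rw [mem_filter, mem_Icc] at hn
    rw [mem_Icc]
    obtain ⟨⟨h1, h2⟩, c, rfl⟩ := hn
    rw [Nat.mul_div_cancel_left _ (by omega)]
    refine ⟨Nat.pos_of_ne_zero (by rintro rfl; simp at h1), ?_⟩
    rw [Nat.le_div_iff_mul_le (by omega), mul_comm]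
    exact h2
  · intro m hm
    rw [mem_Icc] at hm
    rw [mem_filter, mem_Icc]
    refine ⟨⟨Nat.mul_pos (by omega) (by omega), ?_⟩, dvd_mul_right _ _⟩
    have := (Nat.le_div_iff_mul_le (by omega : 0 < d)).1 hm.2
    rw [mul_comm]
    exact this
  · intro n hn
    rw [mem_filter] at hn
    exact Nat.mul_div_cancel' hn.2
  · intro m _
    exact Nat.mul_div_cancel_left _ (by omega)
  · intro n _
    rfl

lemma log1_nonneg (X : ℕ) : 0 ≤ 1 + Real.log X := by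
  have := Real.log_natCast_nonneg X
  linarith

lemma harm (Q : ℕ) : ∑ q ∈ Icc 1 Q, 1 / (q : ℝ) ≤ 1 + Real.log Q := by
  have h5 := harmonic_le_one_add_log Q
  rw [harmonic_eq_sum_Icc] at h5
  push_cast at h5
  simpa [one_div] using h5

lemma tau_mul (m n : ℕ) : (m * n).divisors.card ≤ m.divisors.card * n.divisors.card := by
  rw [Nat.divisors_mul]
  exact card_mul_le

/-- moments of the divisor function -/
lemma tau_pow_div (m X : ℕ) :
    ∑ n ∈ Icc 1 X, (n.divisors.card : ℝ) ^ m / n ≤ (1 + Real.log X) ^ (2 ^ m) := by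
  induction m with
  | zero =>
    simp only [pow_zero, pow_one]
    exact harm X
  | succ m ih =>
    have e1 := dir X (fun d k => ((d.divisors.card : ℝ) ^ m / d) * ((k.divisors.card : ℝ) ^ m / k))
    have e2 : ∀ n ∈ Icc 1 X, (n.divisors.card : ℝ) ^ (m + 1) / n ≤
        ∑ d ∈ n.divisors, ((d.divisors.card : ℝ) ^ m / d) *
          (((n / d).divisors.card : ℝ) ^ m / ((n / d : ℕ) : ℝ)) := by
      intro n hn
      rw [mem_Icc] at hn
      have hn0 : (0 : ℝ) < n := by exact_mod_cast hn.1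
      have e3 : ∀ d ∈ n.divisors, (n.divisors.card : ℝ) ^ m / n ≤
          ((d.divisors.card : ℝ) ^ m / d) *
            (((n / d).divisors.card : ℝ) ^ m / ((n / d : ℕ) : ℝ)) := by
        intro d hd
        have h1 := Nat.dvd_of_mem_divisors hd
        have h2 := tau_mul d (n / d)
        rw [Nat.mul_div_cancel' h1] at h2
        have h3 : (n.divisors.card : ℝ) ^ m ≤
            (d.divisors.card : ℝ) ^ m * ((n / d).divisors.card : ℝ) ^ m := by
          rw [← mul_pow]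
          exact pow_le_pow_left₀ (Nat.cast_nonneg _) (by exact_mod_cast h2) m
        have h4 : (n : ℝ) = (d : ℝ) * ((n / d : ℕ) : ℝ) := by
          rw [← Nat.cast_mul, Nat.mul_div_cancel' h1]
        calc (n.divisors.card : ℝ) ^ m / n ≤
            (d.divisors.card : ℝ) ^ m * ((n / d).divisors.card : ℝ) ^ m / n :=
              div_le_div_of_nonneg_right h3 hn0.le
          _ = _ := by rw [h4, mul_div_mul_comm]
      have e4 := sum_le_sum e3
      rw [sum_const, nsmul_eq_mul] at e4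
      refine le_trans (le_of_eq ?_) e4
      ring
    refine (sum_le_sum e2).trans ?_
    rw [e1]
    have hnn : ∀ k : ℕ, 0 ≤ (k.divisors.card : ℝ) ^ m / k := fun k => by positivity
    have e5 : ∀ d ∈ Icc 1 X, ∑ k ∈ Icc 1 (X / d),
        ((d.divisors.card : ℝ) ^ m / d) * ((k.divisors.card : ℝ) ^ m / k) ≤
        ((d.divisors.card : ℝ) ^ m / d) * (1 + Real.log X) ^ (2 ^ m) := by
      intro d _
      rw [← mul_sum]
      apply mul_le_mul_of_nonneg_left _ (hnn d)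
      refine le_trans ?_ ih
      exact sum_le_sum_of_subset_of_nonneg (Icc_subset_Icc_right (Nat.div_le_self _ _))
        (fun k _ _ => hnn k)
    refine (sum_le_sum e5).trans ?_
    rw [← sum_mul]
    refine (mul_le_mul_of_nonneg_right ih (pow_nonneg (log1_nonneg X) _)).trans (le_of_eq ?_)
    rw [← pow_add, pow_succ]
    congr 1
    omega

/-! ### The product -/

/-- the product of the smooth sum and the mollifier -/
lemma prod_MS {q : ℕ} (ψ : DirichletCharacter ℂ q) {κ : ℝ} (s : ℂ)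
    {G : ℝ → ℂ} {K : ℕ} (hK : K ≤ q)
    (hG : ∀ k l : ℕ, 1 ≤ l → (l : ℝ) ≤ (q : ℝ) ^ κ → K < k →
      G ((Real.log k - Real.log l) / Real.log q) = 0) :
    AS ψ G s * MS ψ κ s = ∑ k ∈ Icc 1 K, ψ (k : ZMod q) * ((k : ℂ) ^ (-s) * bb q κ G k) := by
  classical
  set z : ℂ := -s with hz
  set H : ℕ → ℕ → ℂ := fun k l => ψ (k : ZMod q) * ((k : ℂ) ^ z *
    ((mw q κ l : ℂ) * G ((Real.log k - Real.log l) / Real.log q))) with hH
  have hF : ∀ n ∈ Icc 1 q, ∀ l ∈ Icc 1 ⌊(q : ℝ) ^ κ⌋₊,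
      (G (Real.log n / Real.log q) * (ψ (n : ZMod q) * (n : ℂ) ^ z)) *
        ((mw q κ l : ℂ) * (ψ (l : ZMod q) * (l : ℂ) ^ z)) =
      ∑ k ∈ Icc 1 K, if k = n * l then H k l else 0 := by
    intro n hn l hl
    rw [mem_Icc] at hn hl
    have hn0 : (0 : ℝ) < n := by exact_mod_cast hn.1
    have hl0 : (0 : ℝ) < l := by exact_mod_cast hl.1
    have hnl : 1 ≤ n * l := Nat.mul_pos hn.1 hl.1
    have hlog : Real.log ((n * l : ℕ) : ℝ) - Real.log l = Real.log n := by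
      push_cast
      rw [Real.log_mul hn0.ne' hl0.ne']
      ring
    by_cases h : n * l ≤ K
    · rw [sum_ite_eq' (Icc 1 K) (n * l)]
      rw [if_pos (mem_Icc.2 ⟨hnl, h⟩)]
      simp only [hH]
      rw [hlog]
      push_cast
      rw [map_mul, Complex.natCast_mul_natCast_cpow]
      ring
    · have h2 : (l : ℝ) ≤ (q : ℝ) ^ κ := (Nat.le_floor_iff (by positivity)).1 hl.2
      have h3 := hG (n * l) l hl.1 h2 (by omega)
      rw [hlog] at h3
      rw [h3]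
      symm
      rw [zero_mul, zero_mul]
      apply sum_eq_zero
      intro k hk
      rw [mem_Icc] at hk
      rw [if_neg (by omega)]
  unfold AS MS
  rw [sum_mul_sum]
  rw [sum_congr rfl fun n hn => sum_congr rfl fun l hl => hF n hn l hl]
  have hswap : ∑ n ∈ Icc 1 q, ∑ l ∈ Icc 1 ⌊(q : ℝ) ^ κ⌋₊, ∑ k ∈ Icc 1 K,
      (if k = n * l then H k l else 0) = ∑ k ∈ Icc 1 K, ∑ l ∈ Icc 1 ⌊(q : ℝ) ^ κ⌋₊,
        ∑ n ∈ Icc 1 q, (if k = n * l then H k l else 0) := by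
    rw [sum_comm]
    rw [sum_comm (s := Icc 1 K)]
    refine sum_congr rfl fun l _ => ?_
    rw [sum_comm]
  rw [hswap]
  refine sum_congr rfl fun k hk => ?_
  rw [mem_Icc] at hk
  rw [bb_eq q κ G hk.1, mul_sum, mul_sum]
  refine sum_congr rfl fun l hl => ?_
  rw [mem_Icc] at hl
  by_cases hlk : l ∣ k
  · rw [if_pos hlk]
    have hkl : k = k / l * l := (Nat.div_mul_cancel hlk).symm
    rw [sum_eq_single (k / l)]
    · rw [if_pos hkl]
    · intro n _ hn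
      rw [if_neg]
      intro h
      apply hn
      rw [h, Nat.mul_div_cancel _ hl.1]
    · intro h
      exfalso
      apply h
      rw [mem_Icc]
      refine ⟨Nat.div_pos (Nat.le_of_dvd hk.1 hlk) hl.1, ?_⟩
      exact (Nat.div_le_self _ _).trans (hk.2.trans hK)
  · rw [if_neg hlk, mul_zero, mul_zero]
    apply sum_eq_zero
    intro n _
    rw [if_neg]
    rintro rfl
    exact hlk (dvd_mul_left _ _)

lemma bb_zero' {q κ : ℝ} {G : ℝ → ℂ} {k : ℕ} (hG : ∀ l : ℕ, 1 ≤ l → (l : ℝ) ≤ q ^ κ →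
    G ((Real.log k - Real.log l) / Real.log q) = 0) : bb q κ G k = 0 := by
  unfold bb
  apply sum_eq_zero
  intro l hl
  have h1 : 1 ≤ l := Nat.pos_of_mem_divisors hl
  by_cases h : (l : ℝ) ≤ q ^ κ
  · rw [hG l h1 h, mul_zero]
  · unfold mw
    rw [if_neg h]
    simp

/-- the coefficients of the product -/
noncomputable def cf (q κ : ℝ) (G : ℝ → ℂ) (k : ℕ) : ℂ :=
  2 * bb q κ G k - bb q (κ / 2) G k - if k = 1 then 1 else 0

lemma sum_moebius {k : ℕ} (_hk : 1 ≤ k) :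
    ∑ l ∈ k.divisors, ((ArithmeticFunction.moebius l : ℤ) : ℂ) = if k = 1 then 1 else 0 := by
  have h1 : ∑ l ∈ k.divisors, ArithmeticFunction.moebius l = if k = 1 then 1 else 0 := by
    rw [← ArithmeticFunction.coe_mul_zeta_apply, ArithmeticFunction.moebius_mul_coe_zeta,
      ArithmeticFunction.one_apply]
  have h2 := congrArg (fun x : ℤ => (x : ℂ)) h1
  simp only [Int.cast_sum] at h2
  rw [h2]
  split_ifs <;> simp

lemma coef_small {Q κ : ℝ} (hQ : 1 < Q) (hκ : 0 < κ) {G : ℝ → ℂ} {e₀ : ℝ}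
    (hG : ∀ v, 0 ≤ v → v ≤ κ / 4 → ‖G v - 1‖ ≤ e₀) {k : ℕ} (hk : 1 ≤ k)
    (hkQ : (k : ℝ) ≤ Q ^ (κ / 4)) : ‖cf Q κ G k‖ ≤ e₀ * k.divisors.card := by
  have hL : 0 < Real.log Q := Real.log_pos hQ
  have hk0 : (0 : ℝ) < k := by exact_mod_cast hk
  have h1 : cf Q κ G k = ∑ l ∈ k.divisors, ((ArithmeticFunction.moebius l : ℤ) : ℂ) *
      (G ((Real.log k - Real.log l) / Real.log Q) - 1) := by
    unfold cf bb
    rw [← sum_moebius hk, mul_sum, ← sum_sub_distrib, ← sum_sub_distrib]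
    refine sum_congr rfl fun l hl => ?_
    have hlk : l ≤ k := Nat.divisor_le hl
    have hl1 : 1 ≤ l := Nat.pos_of_mem_divisors hl
    have hlkr : (l : ℝ) ≤ k := by exact_mod_cast hlk
    have h2 : (l : ℝ) ≤ Q ^ κ := hlkr.trans (hkQ.trans
      (Real.rpow_le_rpow_of_exponent_le hQ.le (by linarith)))
    have h3 : (l : ℝ) ≤ Q ^ (κ / 2) := hlkr.trans (hkQ.trans
      (Real.rpow_le_rpow_of_exponent_le hQ.le (by linarith)))
    have h4 : 2 * mw Q κ l - mw Q (κ / 2) l = (ArithmeticFunction.moebius l : ℝ) := by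
      unfold mw
      rw [if_pos h2, if_pos h3]
      field_simp
      ring
    have h5 : 2 * (mw Q κ l : ℂ) - (mw Q (κ / 2) l : ℂ) =
        ((ArithmeticFunction.moebius l : ℤ) : ℂ) := by
      have := congrArg (fun x : ℝ => (x : ℂ)) h4
      push_cast at this
      exact this
    rw [← h5]
    ring
  rw [h1]
  refine (norm_sum_le _ _).trans ?_
  have h6 : ∀ l ∈ k.divisors, ‖((ArithmeticFunction.moebius l : ℤ) : ℂ) *
      (G ((Real.log k - Real.log l) / Real.log Q) - 1)‖ ≤ e₀ := by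
    intro l hl
    have hlk : l ≤ k := Nat.divisor_le hl
    have hl1 : 1 ≤ l := Nat.pos_of_mem_divisors hl
    have hl0 : (0 : ℝ) < l := by exact_mod_cast hl1
    have hlkr : (l : ℝ) ≤ k := by exact_mod_cast hlk
    have h7 : ‖((ArithmeticFunction.moebius l : ℤ) : ℂ)‖ ≤ 1 := by
      have := ArithmeticFunction.abs_moebius_le_one (n := l)
      rw [Complex.norm_intCast]
      exact_mod_cast this
    have h8 := hG ((Real.log k - Real.log l) / Real.log Q)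
      (div_nonneg (sub_nonneg.2 (Real.log_le_log hl0 hlkr)) hL.le) (by
        rw [div_le_iff₀ hL]
        have h9 := Real.log_le_log hk0 hkQ
        rw [Real.log_rpow (by linarith)] at h9
        have h10 : 0 ≤ Real.log l := Real.log_nonneg (by exact_mod_cast hl1)
        linarith)
    rw [norm_mul]
    calc _ ≤ 1 * ‖G ((Real.log k - Real.log l) / Real.log Q) - 1‖ :=
          mul_le_mul_of_nonneg_right h7 (norm_nonneg _)
      _ ≤ e₀ := by rw [one_mul]; exact h8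
  refine (sum_le_sum h6).trans (le_of_eq ?_)
  rw [sum_const, nsmul_eq_mul, mul_comm]

lemma coef_large {Q κ : ℝ} {G : ℝ → ℂ} {k : ℕ} (hk : k ≠ 1) :
    ‖cf Q κ G k‖ ^ 2 ≤ 8 * ‖bb Q κ G k‖ ^ 2 + 2 * ‖bb Q (κ / 2) G k‖ ^ 2 := by
  unfold cf
  rw [if_neg hk, sub_zero]
  have h1 : ‖2 * bb Q κ G k - bb Q (κ / 2) G k‖ ≤ 2 * ‖bb Q κ G k‖ + ‖bb Q (κ / 2) G k‖ := by
    refine (norm_sub_le _ _).trans ?_
    rw [norm_mul]
    norm_num
  have h2 : 0 ≤ ‖2 * bb Q κ G k - bb Q (κ / 2) G k‖ := norm_nonneg _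
  have h3 := pow_le_pow_left₀ h2 h1 2
  nlinarith [sq_nonneg (2 * ‖bb Q κ G k‖ - ‖bb Q (κ / 2) G k‖)]

lemma kpow1 {Q Λ α : ℝ} (hQ : 1 < Q) (hΛ : 0 < Λ) (hα : -(Λ / Real.log Q) ≤ α) {k : ℕ}
    (hk : 1 ≤ k) (hkQ : (k : ℝ) ≤ Q) : (k : ℝ) ^ (-2 * α) ≤ Real.exp (2 * Λ) := by
  have hL : 0 < Real.log Q := Real.log_pos hQ
  have hk0 : (0 : ℝ) < k := by exact_mod_cast hk
  have hl0 : 0 ≤ Real.log k := Real.log_nonneg (by exact_mod_cast hk)
  have hl1 : Real.log k ≤ Real.log Q := Real.log_le_log hk0 hkQ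
  rw [Real.rpow_def_of_pos hk0]
  apply Real.exp_le_exp.2
  have h1 : -α * Real.log k ≤ Λ / Real.log Q * Real.log k :=
    mul_le_mul_of_nonneg_right (by linarith) hl0
  have h2 : Λ / Real.log Q * Real.log k ≤ Λ / Real.log Q * Real.log Q :=
    mul_le_mul_of_nonneg_left hl1 (by positivity)
  have h3 : Λ / Real.log Q * Real.log Q = Λ := div_mul_cancel₀ _ hL.ne'
  linarith

lemma kpow2 {Q Λ α κ : ℝ} (hQ : 1 < Q) (hΛ : 0 < Λ) (hκ : 0 < κ) (hα : -(Λ / Real.log Q) ≤ α)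
    {k : ℕ} (hk : 1 ≤ k) (hkQ : (k : ℝ) ≤ Q) (hkQ2 : Q ^ (κ / 4) ≤ (k : ℝ)) :
    (k : ℝ) ^ (-2 * α) ≤ Real.exp (2 * Λ) * Q ^ (-(κ / 2) * α) := by
  have hQ0 : 0 < Q := by linarith
  rcases le_or_gt 0 α with h | h
  · have h1 : (k : ℝ) ^ (-2 * α) ≤ (Q ^ (κ / 4)) ^ (-2 * α) :=
      Real.rpow_le_rpow_of_nonpos (by positivity) hkQ2 (by linarith)
    have h2 : (Q ^ (κ / 4)) ^ (-2 * α) = Q ^ (-(κ / 2) * α) := by
      rw [← Real.rpow_mul hQ0.le]
      congr 1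
      ring
    rw [h2] at h1
    have h3 : 1 ≤ Real.exp (2 * Λ) := Real.one_le_exp (by positivity)
    have h4 : 0 ≤ Q ^ (-(κ / 2) * α) := by positivity
    nlinarith
  · have h1 := kpow1 hQ hΛ hα hk hkQ
    have h3 : 1 ≤ Q ^ (-(κ / 2) * α) := Real.one_le_rpow hQ.le (by nlinarith)
    have h4 : 0 < Real.exp (2 * Λ) := Real.exp_pos _
    nlinarith

theorem msz (h2 : S_DIAG) : S_MSZ := by
  classical
  intro δ hδ
  obtain ⟨CD, hCD, hdiag⟩ := h2
  refine ⟨1 / 100, 1 / 5, by norm_num, by norm_num, by norm_num, by norm_num, ?_⟩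
  intro κ hκ hκ100 T Λ hΛ
  refine ⟨Real.exp (2 * Λ) * (12 * CD / κ + 1), by positivity, ?_⟩
  intro p hpF hp7
  have hp : p.Prime := hpF.out
  have hp0 : (0 : ℝ) < p := by exact_mod_cast hp.pos
  have hp1 : (1 : ℝ) ≤ p := by exact_mod_cast hp.one_le
  have hplt : (1 : ℝ) < p := by exact_mod_cast hp.one_lt
  have hlp : 0 < Real.log p := Real.log_pos hplt
  refine ⟨⌈2 / (κ * Real.log p)⌉₊ + 1, ?_⟩
  intro ν m hmν hν hm χ hχ B G hG hsupp e₀ he₀ hGe s hs
  have hν3 : 1 ≤ ν := by omega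
  have hνr : (0 : ℝ) < ν := by exact_mod_cast hν3
  have e2 : 2 / (κ * Real.log p) ≤ ν := by
    refine (Nat.le_ceil _).trans ?_
    exact_mod_cast (by omega : ⌈2 / (κ * Real.log p)⌉₊ ≤ ν)
  rw [div_le_iff₀ (by positivity)] at e2
  have hm1 : 1 ≤ m := by
    by_contra hcon
    have h0 : m = 0 := by omega
    rw [h0] at hm
    have : (0 : ℝ) < (19 / 58 + δ) * ν := by positivity
    simp at hm
    linarith
  have hcast : ((p ^ ν : ℕ) : ℝ) = (p : ℝ) ^ ν := by push_cast; rfl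
  have hlogQ : Real.log ((p : ℝ) ^ ν) = ν * Real.log p := Real.log_pow _ _
  set Q : ℝ := (p : ℝ) ^ ν with hQ
  have hQ7 : (7 : ℝ) ≤ Q := by
    have h7 : (7 : ℝ) ≤ p := by exact_mod_cast hp7
    calc (7 : ℝ) ≤ p := h7
      _ = (p : ℝ) ^ 1 := (pow_one _).symm
      _ ≤ (p : ℝ) ^ ν := pow_le_pow_right₀ hp1 hν3
  have hQ1 : 1 < Q := by linarith
  have hQ0 : 0 < Q := by linarith
  have hL : 0 < Real.log Q := Real.log_pos hQ1
  have : NeZero p := ⟨hp.ne_zero⟩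
  obtain ⟨K, hK⟩ : ∃ K : ℕ, K + 1 = p ^ m := by
    have : 0 < p ^ m := pow_pos hp.pos m
    exact ⟨p ^ m - 1, by omega⟩
  have hpm7 : 7 ≤ p ^ m := by
    calc 7 ≤ p := hp7
      _ = p ^ 1 := (pow_one p).symm
      _ ≤ p ^ m := Nat.pow_le_pow_right hp.pos hm1
  have hpmν : p ^ m ≤ p ^ ν := Nat.pow_le_pow_right hp.pos hmν.le
  have hK1 : 1 ≤ K := by omega
  have hKq : K ≤ p ^ ν := by omega
  -- vanishing of the weights
  have hvan : ∀ κ' : ℝ, κ' ≤ κ → ∀ k l : ℕ, 1 ≤ l → (l : ℝ) ≤ Q ^ κ' → K < k →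
      G ((Real.log k - Real.log l) / Real.log Q) = 0 := by
    intro κ' hκ' k l hl hlQ hk
    apply hsupp
    intro h
    have h3 := h.2
    rw [div_le_iff₀ hL] at h3
    have h4 : (m : ℝ) * Real.log p ≤ Real.log k := by
      rw [← Real.log_pow]
      apply Real.log_le_log (by positivity)
      have : p ^ m ≤ k := by omega
      exact_mod_cast this
    have h5 : Real.log l ≤ κ' * Real.log Q := by
      have h6 := Real.log_le_log (by exact_mod_cast hl : (0 : ℝ) < l) hlQ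
      rwa [Real.log_rpow hQ0] at h6
    have h6 : κ' * Real.log Q ≤ κ * Real.log Q := mul_le_mul_of_nonneg_right hκ' hL.le
    have h7 : 19 / 58 * Real.log Q ≤ m * Real.log p := by
      rw [hlogQ, ← mul_assoc]
      apply mul_le_mul_of_nonneg_right _ hlp.le
      nlinarith
    have h8 : κ * Real.log Q ≤ 1 / 100 * Real.log Q := mul_le_mul_of_nonneg_right hκ100 hL.le
    nlinarith
  set f : ℕ → ℂ := fun k => χ (k : ZMod (p ^ ν)) * ((k : ℂ) ^ (-s) * cf Q κ G k) with hf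
  have hf0 : ∀ n, K < n → f n = 0 := by
    intro n hn
    simp only [hf, cf]
    rw [bb_zero' (fun l h1 h2 => hvan κ le_rfl n l h1 h2 hn),
      bb_zero' (fun l h1 h2 => hvan (κ / 2) (by linarith) n l h1 h2 hn), if_neg (by omega)]
    ring
  have hdvd : p ^ m ∣ p ^ ν := pow_dvd_pow p hmν.le
  have hunit : ∀ n : ℕ, IsUnit (n : ZMod (p ^ m)) ↔ IsUnit (n : ZMod (p ^ ν)) := by
    intro n
    rw [ZMod.isUnit_iff_coprime, ZMod.isUnit_iff_coprime, Nat.coprime_pow_right_iff (by omega),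
      Nat.coprime_pow_right_iff (by omega)]
  have hSS : ∀ θ : DirichletCharacter ℂ (p ^ m),
      AS (χ * DirichletCharacter.changeLevel hdvd θ) G s *
        MP (χ * DirichletCharacter.changeLevel hdvd θ) κ s - 1 =
      ∑ n ∈ Icc 1 K, θ (n : ZMod (p ^ m)) * f n := by
    intro θ
    have e1 := prod_MS (χ * DirichletCharacter.changeLevel hdvd θ) (κ := κ) s hKq
      (fun k l h1 h2 h3 => by
        rw [hcast] at h2 ⊢
        exact hvan κ le_rfl k l h1 h2 h3)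
    have e3 := prod_MS (χ * DirichletCharacter.changeLevel hdvd θ) (κ := κ / 2) s hKq
      (fun k l h1 h2 h3 => by
        rw [hcast] at h2 ⊢
        exact hvan (κ / 2) (by linarith) k l h1 h2 h3)
    have e4 : (1 : ℂ) = ∑ k ∈ Icc 1 K, (χ * DirichletCharacter.changeLevel hdvd θ)
        (k : ZMod (p ^ ν)) * ((k : ℂ) ^ (-s) * if k = 1 then 1 else 0) := by
      rw [sum_eq_single 1]
      · simp
      · intro k _ hk
        rw [if_neg hk, mul_zero, mul_zero]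
      · intro h
        exact absurd (mem_Icc.2 ⟨le_rfl, hK1⟩) h
    unfold MP
    have e5 : AS (χ * DirichletCharacter.changeLevel hdvd θ) G s *
        (2 * MS (χ * DirichletCharacter.changeLevel hdvd θ) κ s -
          MS (χ * DirichletCharacter.changeLevel hdvd θ) (κ / 2) s) =
        2 * (AS (χ * DirichletCharacter.changeLevel hdvd θ) G s *
          MS (χ * DirichletCharacter.changeLevel hdvd θ) κ s) -
        AS (χ * DirichletCharacter.changeLevel hdvd θ) G s *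
          MS (χ * DirichletCharacter.changeLevel hdvd θ) (κ / 2) s := by ring
    rw [e5, e1, e3]
    conv_lhs => rw [e4]
    rw [mul_sum, ← sum_sub_distrib, ← sum_sub_distrib]
    refine sum_congr rfl fun n _ => ?_
    rw [hcast, MulChar.mul_apply]
    by_cases hn : IsUnit (n : ZMod (p ^ ν))
    · obtain ⟨u, hu⟩ := hn
      have : (DirichletCharacter.changeLevel hdvd θ) (n : ZMod (p ^ ν)) =
          θ (n : ZMod (p ^ m)) := by
        rw [← hu, DirichletCharacter.changeLevel_eq_cast_of_dvd, hu, ZMod.cast_natCast hdvd]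
      rw [this]
      simp only [hf, cf]
      ring
    · have h1 : χ (n : ZMod (p ^ ν)) = 0 := MulChar.map_nonunit _ hn
      simp only [hf]
      rw [h1]
      ring
  simp_rw [hSS]
  have horth := orth (d := p ^ m) (Icc 1 K) f (fun n _ hn => by
    simp only [hf]
    rw [MulChar.map_nonunit χ (fun h1 => hn ((hunit n).2 h1)), zero_mul])
  refine horth.trans ?_
  have hcong := cong_sum (d := p ^ m) (M := K) (pow_pos hp.pos m) f hf0
  have hKd : K / p ^ m = 0 := Nat.div_eq_of_lt (by omega)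
  rw [hKd] at hcong
  simp only [show Icc 1 0 = (∅ : Finset ℕ) from rfl, sum_empty, mul_zero, add_zero] at hcong
  -- the diagonal
  obtain ⟨hs1, hs2, hs3⟩ := hs
  obtain ⟨α, hα⟩ : ∃ α : ℝ, α = s.re - 1 / 2 := ⟨_, rfl⟩
  have hα1 : -(Λ / Real.log Q) ≤ α := by rw [hα]; linarith
  have hKQ : (K : ℝ) ≤ Q := by
    rw [← hcast]
    exact_mod_cast hKq
  have hKQ2 : (K : ℝ) ≤ Q ^ 2 := by nlinarith
  have hterm : ∀ n ∈ Icc 1 K, ‖f n‖ ^ 2 ≤ Real.exp (2 * Λ) *
      (e₀ ^ 2 * ((n.divisors.card : ℝ) ^ 2 / n) + Q ^ (-(κ / 2) * α) *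
        (8 * (‖bb Q κ G n‖ ^ 2 / n) + 2 * (‖bb Q (κ / 2) G n‖ ^ 2 / n))) := by
    intro n hn
    rw [mem_Icc] at hn
    have hn0 : (0 : ℝ) < n := by exact_mod_cast hn.1
    have hnQ : (n : ℝ) ≤ Q := le_trans (by exact_mod_cast hn.2) hKQ
    have h3 : ‖χ (n : ZMod (p ^ ν))‖ ^ 2 ≤ 1 := by
      have := χ.norm_le_one (n : ZMod (p ^ ν))
      exact pow_le_one₀ (norm_nonneg _) this
    have h4 : ‖(n : ℂ) ^ (-s)‖ ^ 2 = 1 / n * (n : ℝ) ^ (-2 * α) := by
      rw [Complex.norm_natCast_cpow_of_pos hn.1, ← Real.rpow_natCast, ← Real.rpow_mul hn0.le,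
        one_div, ← Real.rpow_neg_one, ← Real.rpow_add hn0]
      congr 1
      rw [hα]
      simp
      ring
    have h5 : ‖f n‖ ^ 2 ≤ 1 / n * (n : ℝ) ^ (-2 * α) * ‖cf Q κ G n‖ ^ 2 := by
      simp only [hf]
      rw [norm_mul, norm_mul, mul_pow, mul_pow, h4]
      have h6 : 0 ≤ 1 / (n : ℝ) * (n : ℝ) ^ (-2 * α) * ‖cf Q κ G n‖ ^ 2 := by positivity
      calc _ ≤ 1 * (1 / (n : ℝ) * (n : ℝ) ^ (-2 * α) * ‖cf Q κ G n‖ ^ 2) :=
            mul_le_mul_of_nonneg_right h3 h6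
        _ = _ := one_mul _
    refine h5.trans ?_
    have hX : 0 ≤ Q ^ (-(κ / 2) * α) *
        (8 * (‖bb Q κ G n‖ ^ 2 / n) + 2 * (‖bb Q (κ / 2) G n‖ ^ 2 / n)) := by positivity
    have hY : 0 ≤ e₀ ^ 2 * ((n.divisors.card : ℝ) ^ 2 / n) := by positivity
    have hE := Real.exp_pos (2 * Λ)
    rcases le_or_gt (n : ℝ) (Q ^ (κ / 4)) with h7 | h7
    · have h8 := coef_small hQ1 hκ hGe hn.1 h7
      have h9 := kpow1 hQ1 hΛ hα1 hn.1 hnQ
      have h10 : ‖cf Q κ G n‖ ^ 2 ≤ (e₀ * n.divisors.card) ^ 2 :=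
        pow_le_pow_left₀ (norm_nonneg _) h8 2
      calc 1 / (n : ℝ) * (n : ℝ) ^ (-2 * α) * ‖cf Q κ G n‖ ^ 2
          ≤ 1 / (n : ℝ) * Real.exp (2 * Λ) * (e₀ * n.divisors.card) ^ 2 := by gcongr
        _ = Real.exp (2 * Λ) * (e₀ ^ 2 * ((n.divisors.card : ℝ) ^ 2 / n)) := by ring
        _ ≤ _ := mul_le_mul_of_nonneg_left (by linarith) hE.le
    · have hn1 : n ≠ 1 := by
        rintro rfl
        have : 1 ≤ Q ^ (κ / 4) := Real.one_le_rpow hQ1.le (by positivity)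
        rw [Nat.cast_one] at h7
        linarith
      have h8 := coef_large (Q := Q) (κ := κ) (G := G) hn1
      have h9 := kpow2 hQ1 hΛ hκ hα1 hn.1 hnQ h7.le
      calc 1 / (n : ℝ) * (n : ℝ) ^ (-2 * α) * ‖cf Q κ G n‖ ^ 2
          ≤ 1 / (n : ℝ) * (Real.exp (2 * Λ) * Q ^ (-(κ / 2) * α)) *
            (8 * ‖bb Q κ G n‖ ^ 2 + 2 * ‖bb Q (κ / 2) G n‖ ^ 2) := by gcongr
        _ = Real.exp (2 * Λ) * (Q ^ (-(κ / 2) * α) *
            (8 * (‖bb Q κ G n‖ ^ 2 / n) + 2 * (‖bb Q (κ / 2) G n‖ ^ 2 / n))) := by ring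
        _ ≤ _ := mul_le_mul_of_nonneg_left (by linarith) hE.le
  have hd1 := hdiag κ hκ (by linarith) B G hG Q hQ0 (by rw [hlogQ]; nlinarith) K hKQ2
  have hd2 := hdiag (κ / 2) (by linarith) (by linarith) B G hG Q hQ0
    (by rw [hlogQ]; nlinarith) K hKQ2
  have htau := tau_pow_div 2 K
  have hlogK : Real.log K ≤ ν * Real.log p := by
    rw [← hlogQ]
    exact Real.log_le_log (by exact_mod_cast hK1) hKQ
  have htau2 : ∑ n ∈ Icc 1 K, (n.divisors.card : ℝ) ^ 2 / n ≤ (1 + ν * Real.log p) ^ 4 := by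
    refine htau.trans ?_
    norm_num
    exact pow_le_pow_left₀ (log1_nonneg K) (by linarith) 4
  have hD : ∑ n ∈ Icc 1 K, ‖f n‖ ^ 2 ≤ Real.exp (2 * Λ) *
      (e₀ ^ 2 * (1 + ν * Real.log p) ^ 4 + Q ^ (-(κ / 2) * α) * (12 * CD * B ^ 2 / κ)) := by
    refine (sum_le_sum hterm).trans ?_
    rw [← mul_sum, sum_add_distrib, ← mul_sum, ← mul_sum, sum_add_distrib, ← mul_sum, ← mul_sum]
    apply mul_le_mul_of_nonneg_left _ (Real.exp_pos _).le
    apply add_le_add (mul_le_mul_of_nonneg_left htau2 (by positivity))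
    apply mul_le_mul_of_nonneg_left _ (by positivity)
    have e3 : CD * B ^ 2 / (κ / 2) = 2 * (CD * B ^ 2 / κ) := by field_simp
    rw [e3] at hd2
    have e4 : 12 * CD * B ^ 2 / κ = 8 * (CD * B ^ 2 / κ) + 2 * (2 * (CD * B ^ 2 / κ)) := by ring
    rw [e4]
    exact add_le_add (mul_le_mul_of_nonneg_left hd1 (by norm_num))
      (mul_le_mul_of_nonneg_left hd2 (by norm_num))
  have hpm : ((p ^ m : ℕ) : ℝ) = (p : ℝ) ^ m := by push_cast; rfl
  rw [hpm, mul_comm]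
  refine mul_le_mul_of_nonneg_right ((hcong.trans hD).trans ?_) (by positivity)
  rw [← hα, mul_assoc (Real.exp (2 * Λ))]
  apply mul_le_mul_of_nonneg_left _ (Real.exp_pos _).le
  have hA : 0 ≤ Q ^ (-(κ / 2) * α) := by positivity
  have hB : 0 ≤ Q ^ (-(1 / 5) : ℝ) := by positivity
  have hC : 0 ≤ e₀ ^ 2 * (1 + ν * Real.log p) ^ 4 := by positivity
  have hc : 0 ≤ 12 * CD / κ := by positivity
  have hB2 : 0 ≤ B ^ 2 := sq_nonneg B
  have e6 : Q ^ (-(κ / 2) * α) * (12 * CD * B ^ 2 / κ) =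
      12 * CD / κ * (B ^ 2 * Q ^ (-(κ / 2) * α)) := by ring
  rw [e6]
  have h1 : 0 ≤ B ^ 2 * Q ^ (-(κ / 2) * α) := by positivity
  have h2 : 0 ≤ B ^ 2 * Q ^ (-(1 / 5) : ℝ) := by positivity
  have h3 : 0 ≤ 12 * CD / κ * (B ^ 2 * Q ^ (-(1 / 5) : ℝ)) := by positivity
  have h4 : 0 ≤ 12 * CD / κ * (e₀ ^ 2 * (1 + ν * Real.log p) ^ 4) := by positivity
  calc e₀ ^ 2 * (1 + ν * Real.log p) ^ 4 + 12 * CD / κ * (B ^ 2 * Q ^ (-(κ / 2) * α))
      ≤ (12 * CD / κ * (B ^ 2 * Q ^ (-(κ / 2) * α)) + B ^ 2 * Q ^ (-(κ / 2) * α)) +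
        (12 * CD / κ * (B ^ 2 * Q ^ (-(1 / 5) : ℝ)) + B ^ 2 * Q ^ (-(1 / 5) : ℝ)) +
        (12 * CD / κ * (e₀ ^ 2 * (1 + ν * Real.log p) ^ 4) +
          e₀ ^ 2 * (1 + ν * Real.log p) ^ 4) := by linarith
    _ = (12 * CD / κ + 1) * (B ^ 2 * (Q ^ (-(κ / 2) * α) + Q ^ (-(1 / 5) : ℝ)) +
        e₀ ^ 2 * (1 + ν * Real.log p) ^ 4) := by ring

end Pool.Agent.Y889.R11
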